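import Mathlib
import Pool.Agent.Helper94.Tarski.Main

set_option autoImplicit false

namespace Pool.Agent.Results.MP_2cd633_al.InfiniteGirth

/-- A non-abelian simple right-ordered group all of whose proper subgroups are cyclic has elements
`c`, `g` such that for every finite set `W` of nontrivial words in two letters and suitable `m > 0`,
for all `k > 0` the elements `c ^ (m * k)` and `g * c ^ (m * k) * g⁻¹` generate the group and
satisfy none of the relations `w = 1`, `w ∈ W`. -/
theorem result :
    ∀ (G : Type) [Group G] [LinearOrder G],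
      (∀ a b c : G, a ≤ b → a * c ≤ b * c) →
      IsSimpleGroup G →
      (∃ a b : G, a * b ≠ b * a) →
      (∀ H : Subgroup G, H ≠ ⊤ → IsCyclic H) →
      ∃ c g : G, ∀ W : Finset (FreeGroup Bool), (1 : FreeGroup Bool) ∉ W →
        ∃ m : ℕ, 0 < m ∧ ∀ k : ℕ, 0 < k →
          Subgroup.closure {c ^ (m * k), g * c ^ (m * k) * g⁻¹} = ⊤ ∧
          ∀ w ∈ W, FreeGroup.lift (fun b : Bool =>
            cond b (c ^ (m * k)) (g * c ^ (m * k) * g⁻¹)) w ≠ 1 := by
  intro G _ _ hmul hs hna hcyc
  exact Pool.Agent.Helper94.Tarski.main G hmul hna hcyc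

end Pool.Agent.Results.MP_2cd633_al.InfiniteGirth
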